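import Mathlib

open Filter Topology Real MeasureTheory Set

namespace Pool.Agent.H.MP_38ba9c_an

lemma intLe {G g Γ : ℝ → ℝ} {a b : ℝ} (hab : a ≤ b) (hG : Continuous G) (hg : Continuous g)
    (hΓ : ∀ t, HasDerivAt Γ (g t) t) (h : ∀ t ∈ Icc a b, G t ≤ g t) :
    ∫ t in a..b, G t ≤ Γ b - Γ a := by
  rw [← intervalIntegral.integral_eq_sub_of_hasDerivAt (fun t _ => hΓ t) (hg.intervalIntegrable a b)]
  exact intervalIntegral.integral_mono_on hab (hG.intervalIntegrable a b)
    (hg.intervalIntegrable a b) h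

lemma incr {g Γ : ℝ → ℝ} {a b : ℝ} (hab : a ≤ b) (hg : Continuous g)
    (hΓ : ∀ t, HasDerivAt Γ (g t) t) (h : ∀ t ∈ Icc a b, 0 ≤ g t) : Γ a ≤ Γ b := by
  have := intLe (G := fun _ => 0) hab continuous_const hg hΓ h
  simpa using this

lemma dexp (c t : ℝ) : HasDerivAt (fun t => exp (c * t)) (c * exp (c * t)) t := by
  simpa [mul_comm] using ((hasDerivAt_id t).const_mul c).exp

/-- The fundamental solution of k'' + k' + λ k = 0 and its derivative. -/
structure Fund (l : ℝ) (k h : ℝ → ℝ) : Prop where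
  k0 : k 0 = 0
  h0 : h 0 = 1
  dk : ∀ t, HasDerivAt k (h t) t
  dh : ∀ t, HasDerivAt h (-h t - l * k t) t

variable {l : ℝ} {k h : ℝ → ℝ}

lemma Fund.ck (F : Fund l k h) : Continuous k :=
  continuous_iff_continuousAt.2 fun t => (F.dk t).continuousAt

lemma Fund.ch (F : Fund l k h) : Continuous h :=
  continuous_iff_continuousAt.2 fun t => (F.dh t).continuousAt

lemma Fund.decay (F : Fund l k h) (hl : 0 < l) :
    Tendsto h atTop (𝓝 0) ∧ Tendsto k atTop (𝓝 0) := by
  set δ := 2 / 3 * (l / (l + 1)) with hδ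
  have l1 : l / (l + 1) < 1 := (div_lt_one (by linarith)).2 (by linarith)
  have l2 : l / (l + 1) * (l + 1) = l := div_mul_cancel₀ _ (by linarith)
  have δ0 : 0 < δ := by positivity
  have ck := F.ck
  have ch := F.ch
  have h1 : ∀ t, 0 ≤ t → h t ^ 2 + k t * h t + (l + 1 / 2) * k t ^ 2 ≤ exp (-(δ * t)) := by
    intro t ht
    have := incr (Γ := fun t => -(exp (δ * t) * (h t ^ 2 + k t * h t + (l + 1 / 2) * k t ^ 2)))
      (g := fun t => exp (δ * t) * (h t ^ 2 + l * k t ^ 2 -
        δ * (h t ^ 2 + k t * h t + (l + 1 / 2) * k t ^ 2))) ht (by fun_prop) (fun t => by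
      refine HasDerivAt.congr_deriv (((dexp δ t).fun_mul ((((F.dh t).fun_pow 2).fun_add ((F.dk t).fun_mul (F.dh t))).fun_add
        (((F.dk t).fun_pow 2).const_mul (l + 1 / 2)))).fun_neg) ?_
      simp; ring) fun t _ => mul_nonneg (exp_pos _).le (by
        have a1 : 0 ≤ δ * (h t - k t) ^ 2 := by positivity
        have a2 : 0 ≤ (1 - 3 / 2 * δ) * h t ^ 2 := mul_nonneg (by linarith) (sq_nonneg _)
        have a3 : 0 ≤ (l - δ * (l + 1)) * k t ^ 2 := mul_nonneg (by nlinarith) (sq_nonneg _)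
        nlinarith)
    simp only [F.k0, F.h0, mul_zero, exp_zero] at this
    rw [exp_neg, inv_eq_one_div, le_div_iff₀ (exp_pos _)]
    linarith
  have t0 : Tendsto (fun t => exp (-(δ * t))) atTop (𝓝 0) :=
    tendsto_exp_neg_atTop_nhds_zero.comp (tendsto_id.const_mul_atTop δ0)
  have sq : ∀ {x : ℝ → ℝ} (C : ℝ), (∀ t, 0 ≤ t → x t ^ 2 ≤ C * exp (-(δ * t))) →
      Tendsto x atTop (𝓝 0) := fun {x} C hx => by
    have t1 := (t0.const_mul C).sqrt
    rw [mul_zero, sqrt_zero] at t1
    exact squeeze_zero_norm' ((eventually_ge_atTop 0).mono fun t ht => abs_le_sqrt (hx t ht)) t1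
  refine ⟨sq 2 fun t ht => ?_, sq l⁻¹ fun t ht => ?_⟩
  · nlinarith [h1 t ht, sq_nonneg (h t + k t), mul_nonneg hl.le (sq_nonneg (k t))]
  · rw [le_inv_mul_iff₀ hl]
    nlinarith [h1 t ht, sq_nonneg (h t + k t), sq_nonneg (h t)]

/-- The excess of |h| over exp (-t). -/
noncomputable def ex (h : ℝ → ℝ) (t : ℝ) : ℝ := max (|h t| - exp (-t)) 0

lemma Fund.cex (F : Fund l k h) : Continuous (ex h) := by
  have := F.ch
  unfold ex; fun_prop

lemma Fund.pos (F : Fund l k h) (hl : 0 < l) {T : ℝ} (hT : 0 ≤ T) (hk : ∀ t ∈ Icc 0 T, 0 ≤ k t) :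
    ∫ t in (0 : ℝ)..T, ex h t ≤ 1 - exp (-T) - k T := by
  have ck := F.ck
  have ch := F.ch
  have h1 : ∀ t ∈ Icc 0 T, h t ≤ exp (-t) := fun t ht => by
    have := incr (Γ := fun t => -(exp t * h t)) (g := fun t => exp t * (l * k t)) ht.1
      (by fun_prop) (fun t => by
        refine HasDerivAt.congr_deriv (((hasDerivAt_exp t).fun_mul (F.dh t)).fun_neg) ?_; ring)
      fun s hs => mul_nonneg (exp_pos _).le (mul_nonneg hl.le (hk s ⟨hs.1, hs.2.trans ht.2⟩))
    simp only [F.h0, exp_zero] at this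
    rw [exp_neg, inv_eq_one_div, le_div_iff₀ (exp_pos _)]
    linarith
  have := intLe (Γ := fun t => -exp (-t) - k t) (g := fun t => exp (-t) - h t) hT F.cex
    (by fun_prop) (fun t => by
      refine HasDerivAt.congr_deriv ((hasDerivAt_neg t).exp.fun_neg.fun_sub (F.dk t)) ?_; simp) fun t ht => by
      have a1 := h1 t ht
      have a2 := exp_pos (-t)
      exact max_le (by rw [sub_le_iff_le_add, abs_le]; constructor <;> linarith) (by linarith)
  simp only [F.k0, neg_zero, exp_zero] at this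
  linarith

lemma Fund.big (F : Fund l k h) (hl : 17 / 50 ≤ l) {T : ℝ} (hT : 0 ≤ T) :
    ∫ t in (0 : ℝ)..T, ex h t ≤ 1 := by
  have ck := F.ck
  have ch := F.ch
  have l0 : 0 < 16 * l - 3 := by linarith
  have e1 : ∀ t, exp (-t) = exp (-1 / 2 * t) ^ 2 := fun t => by
    rw [← exp_nat_mul]; congr 1; push_cast; ring
  have e2 : ∀ t, exp (1 / 2 * t) * exp (-1 / 2 * t) = 1 := fun t => by
    rw [← exp_add, ← exp_zero]; congr 1; ring
  have := intLe (Γ := fun t => -(7 / 16 / (16 * l - 3) * (exp (1 / 2 * t) *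
      ((16 * l - 2) * h t ^ 2 + 8 * l * (k t * h t) + 16 * l ^ 2 * k t ^ 2))) +
      7 / 8 * (-(72 / 49) * exp (-1 / 2 * t) + 12 / 7 * exp (-1 / 2 * t) ^ 2 -
        2 / 3 * exp (-1 / 2 * t) ^ 3))
    (g := fun t => 7 / 16 * (exp (1 / 2 * t) * h t ^ 2) +
      7 / 8 * (exp (-1 / 2 * t) * (6 / 7 - exp (-1 / 2 * t)) ^ 2)) hT F.cex
    (by fun_prop) (fun t => by
      have d := dexp (-1 / 2) t
      refine HasDerivAt.congr_deriv (((((dexp (1 / 2) t).fun_mul (((((F.dh t).fun_pow 2).const_mul (16 * l - 2)).fun_add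
        (((F.dk t).fun_mul (F.dh t)).const_mul (8 * l))).fun_add (((F.dk t).fun_pow 2).const_mul
        (16 * l ^ 2)))).const_mul (7 / 16 / (16 * l - 3))).fun_neg).fun_add
        ((((d.const_mul (-(72 / 49))).fun_add ((d.fun_pow 2).const_mul (12 / 7))).fun_sub
          ((d.fun_pow 3).const_mul (2 / 3))).const_mul (7 / 8))) ?_
      have := l0.ne'
      simp only [Nat.cast_ofNat, Nat.add_one_sub_one, pow_one]
      field_simp
      ring) fun t _ => by
      have a1 := e2 t
      have a2 := exp_pos (1 / 2 * t)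
      have a3 := exp_pos (-1 / 2 * t)
      refine max_le ?_ (by positivity)
      rw [e1, ← sq_abs (h t)]
      generalize exp (1 / 2 * t) = x at *
      generalize exp (-1 / 2 * t) = y at *
      have a4 : 0 ≤ x * (|h t| - 8 / 7 * y) ^ 2 := by positivity
      have a5 : 0 ≤ y * (y - 2 / 7) ^ 2 := by positivity
      have a6 : x * y * |h t| = |h t| := by rw [a1, one_mul]
      have a7 : x * y * y = y := by rw [a1, one_mul]
      nlinarith
  simp only [F.k0, F.h0, mul_zero, exp_zero] at this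
  have a1 : 0 ≤ 7 / 16 / (16 * l - 3) * (exp (1 / 2 * T) *
      ((16 * l - 2) * h T ^ 2 + 8 * l * (k T * h T) + 16 * l ^ 2 * k T ^ 2)) :=
    mul_nonneg (by positivity) (mul_nonneg (exp_pos _).le (by
      nlinarith [sq_nonneg (h T + 4 * l * k T), mul_nonneg l0.le (sq_nonneg (h T))]))
  have a2 : 0 ≤ exp (-1 / 2 * T) * ((exp (-1 / 2 * T) - 9 / 7) ^ 2 + 27 / 49) := by positivity
  have a3 : 7 / 16 / (16 * l - 3) * (16 * l - 2) ≤ 63 / 100 := by
    rw [div_mul_eq_mul_div, div_le_iff₀ l0]; linarith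
  nlinarith

lemma mkFund {S C : ℝ → ℝ} (S0 : S 0 = 0) (C0 : C 0 = 1) (dS : ∀ t, HasDerivAt S (C t) t)
    (dC : ∀ t, HasDerivAt C (-(l - 1 / 4) * S t) t) :
    Fund l (fun t => exp (-1 / 2 * t) * S t) fun t => exp (-1 / 2 * t) * (C t - S t / 2) :=
  ⟨by simp [S0], by simp [S0, C0], fun t => by
    refine HasDerivAt.congr_deriv ((dexp (-1 / 2) t).fun_mul (dS t)) ?_; ring, fun t => by
    refine HasDerivAt.congr_deriv ((dexp (-1 / 2) t).fun_mul ((dC t).fun_sub ((dS t).div_const 2))) ?_; ring⟩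

lemma kernel (hl : 0 < l) : ∃ k h, Fund l k h ∧ ∀ T, 0 ≤ T → ∫ t in (0 : ℝ)..T, ex h t ≤ 1 := by
  have fin : ∀ k h, Fund l k h → (∀ t, 0 ≤ t → 0 ≤ k t) →
      ∃ k h, Fund l k h ∧ ∀ T, 0 ≤ T → ∫ t in (0 : ℝ)..T, ex h t ≤ 1 := fun k h F hk =>
    ⟨k, h, F, fun T hT => by
      linarith [F.pos hl hT fun t ht => hk t ht.1, exp_pos (-T), hk T hT]⟩
  rcases lt_trichotomy l (1 / 4) with c | c | c
  · set w := √(1 / 4 - l) with hw
    have w0 : 0 < w := sqrt_pos.2 (by linarith)
    have w2 : w ^ 2 = 1 / 4 - l := sq_sqrt (by linarith)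
    refine fin _ _ (mkFund (S := fun t => sinh (w * t) / w) (C := fun t => cosh (w * t)) (by simp)
      (by simp) (fun t => ?_) fun t => ?_) fun t ht =>
        mul_nonneg (exp_pos _).le (div_nonneg (sinh_nonneg_iff.2 (by positivity)) w0.le)
    · refine HasDerivAt.congr_deriv (((hasDerivAt_id' t).const_mul w).sinh.div_const w) ?_; field_simp
    · refine HasDerivAt.congr_deriv (((hasDerivAt_id' t).const_mul w).cosh) ?_
      rw [neg_sub, ← w2]; field_simp
  · exact fin _ _ (mkFund (S := fun t => t) (C := fun _ => 1) rfl rfl hasDerivAt_id'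
      fun t => by simpa [c] using hasDerivAt_const t (1 : ℝ)) fun t ht => by positivity
  set w := √(l - 1 / 4) with hw
  have w0 : 0 < w := sqrt_pos.2 (by linarith)
  have w2 : w ^ 2 = l - 1 / 4 := sq_sqrt (by linarith)
  have F := mkFund (l := l) (S := fun t => sin (w * t) / w) (C := fun t => cos (w * t)) (by simp)
    (by simp) (fun t => by
      refine HasDerivAt.congr_deriv (((hasDerivAt_id' t).const_mul w).sin.div_const w) ?_; field_simp) fun t => by
      refine HasDerivAt.congr_deriv (((hasDerivAt_id' t).const_mul w).cos) ?_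
      rw [← w2]; field_simp
  refine ⟨_, _, F, fun T hT => ?_⟩
  rcases le_total (17 / 50) l with c2 | c2
  · exact F.big c2 hT
  set k : ℝ → ℝ := fun t => exp (-1 / 2 * t) * (sin (w * t) / w) with hk
  set h : ℝ → ℝ := fun t => exp (-1 / 2 * t) * (cos (w * t) - sin (w * t) / w / 2) with hh
  have w3 : w ≤ 3 / 10 := by nlinarith
  have s0 : ∀ t ∈ Icc (0 : ℝ) 10, 0 ≤ sin (w * t) := fun t ht =>
    sin_nonneg_of_nonneg_of_le_pi (mul_nonneg w0.le ht.1) (by nlinarith [ht.1, ht.2, pi_gt_three])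
  have k0 : ∀ t ∈ Icc (0 : ℝ) 10, 0 ≤ k t := fun t ht =>
    mul_nonneg (exp_pos _).le (div_nonneg (s0 t ht) w0.le)
  have I := fun a b => F.cex.intervalIntegrable (μ := volume) a b
  have h1 := F.pos hl (T := 2) (by norm_num) fun t ht => k0 t ⟨ht.1, by linarith [ht.2]⟩
  have h2 := intLe (Γ := fun t => -k t) (g := fun t => -h t) (a := 2) (b := 10) (by norm_num) F.cex
    F.ch.neg (fun t => (F.dk t).fun_neg) fun t ht => by
      have a0 := s0 t ⟨by linarith [ht.1], ht.2⟩
      have a1 : w * t * cos (w * t) ≤ sin (w * t) := by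
        rcases le_or_gt (cos (w * t)) 0 with d | d
        · exact (mul_nonpos_of_nonneg_of_nonpos (by nlinarith [ht.1]) d).trans a0
        · rw [← le_div_iff₀ d, ← tan_eq_sin_div_cos]
          refine le_tan (by nlinarith [ht.1]) (lt_of_not_ge fun e => absurd d (not_lt.2 ?_))
          exact cos_nonpos_of_pi_div_two_le_of_le e (by nlinarith [ht.1, ht.2, pi_gt_three])
      have a2 : h t ≤ 0 := mul_nonpos_of_nonneg_of_nonpos (exp_pos _).le (by
        rw [sub_nonpos, div_div, le_div_iff₀ (by positivity)]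
        rcases le_or_gt (cos (w * t)) 0 with d | d
        · exact (mul_nonpos_of_nonpos_of_nonneg d (by positivity)).trans a0
        · nlinarith [mul_nonneg (mul_pos w0 d).le (sub_nonneg.2 ht.1)])
      exact max_le (by rw [abs_of_nonpos a2]; linarith [exp_pos (-t)]) (by linarith)
  have h3 := intLe (Γ := fun t => -(exp (-1 / 2 * t) * (4 + t)))
    (g := fun t => exp (-1 / 2 * t) * (1 + t / 2)) (le_max_left 10 T) F.cex (by fun_prop)
    (fun t => by
      refine HasDerivAt.congr_deriv (((dexp (-1 / 2) t).fun_mul ((hasDerivAt_id' t).const_add 4)).fun_neg) ?_; ring)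
    fun t ht => by
      have t0 : 0 ≤ t := by linarith [ht.1]
      refine max_le (le_trans (sub_le_self _ (exp_pos _).le) ?_) (by positivity)
      rw [hh, abs_mul, abs_of_pos (exp_pos _)]
      refine mul_le_mul_of_nonneg_left ((abs_sub _ _).trans (add_le_add (abs_cos_le_one _) ?_))
        (exp_pos _).le
      rw [div_div, abs_div, abs_of_pos (by positivity : 0 < w * 2), div_le_iff₀ (by positivity)]
      have := abs_sin_le_abs (x := w * t)
      rw [abs_of_nonneg (by positivity : 0 ≤ w * t)] at this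
      linarith
  have h4 : 0 ≤ ∫ t in T..max 10 T, ex h t :=
    intervalIntegral.integral_nonneg (le_max_right _ _) fun _ _ => le_max_right _ _
  have h5 := intervalIntegral.integral_add_adjacent_intervals (I 0 T) (I T (max 10 T))
  have h6 := intervalIntegral.integral_add_adjacent_intervals (I 0 2) (I 2 10)
  have h7 := intervalIntegral.integral_add_adjacent_intervals (I 0 10) (I 10 (max 10 T))
  have h8 : 0 ≤ exp (-1 / 2 * max 10 T) * (4 + max 10 T) := by positivity
  have h9 := k0 10 ⟨by norm_num, le_rfl⟩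
  have h10 : exp (-1 / 2 * 10) * (4 + 10) ≤ exp (-2) := by
    have e : exp (-2) = exp (-1 / 2 * 10) * exp 1 ^ 3 := by
      rw [← exp_nat_mul, ← exp_add]; norm_num
    rw [e]
    refine mul_le_mul_of_nonneg_left (le_trans ?_ (pow_le_pow_left₀ (by norm_num)
      exp_one_gt_d9.le 3)) (exp_pos _).le
    norm_num
  linarith

end Pool.Agent.H.MP_38ba9c_an
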