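import Pool.Agent.H.MP_38ba9c_an.Up

open Filter Topology Real MeasureTheory Set RealInnerProductSpace

namespace Pool.Agent.H.MP_38ba9c_an

/-- The solution of z' = g - r z with z 0 = 0. -/
noncomputable def z (g : ℝ → ℝ) (r t : ℝ) : ℝ :=
  exp (-r * t) * ∫ s in (0 : ℝ)..t, exp (r * s) * g s

lemma dz {g : ℝ → ℝ} (hg : Continuous g) (r t : ℝ) :
    HasDerivAt (z g r) (g t - r * z g r t) t := by
  have hc : Continuous fun s => exp (r * s) * g s := by fun_prop
  refine HasDerivAt.congr_deriv ((dexp (-r) t).fun_mul (hc.integral_hasStrictDerivAt 0 t).hasDerivAt) ?_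
  have : exp (-r * t) * exp (r * t) = 1 := by rw [← exp_add]; simp
  rw [← mul_assoc, this, z]
  ring

lemma filt {g : ℝ → ℝ} (hg : Continuous g) {r γ x x' t : ℝ} (hr : 0 < r) (h1 : ∀ s, g s ≤ 1)
    (hγ : -1 ≤ γ) (hx : 0 ≤ x) (hx' : 0 < x') (hxx : x ≤ x') (ht : x' ≤ t)
    (h2 : ∀ s ∈ Icc (t - x') (t - x), g s ≤ γ) :
    r * z g r t ≤ γ + 2 * (1 / (r * x') + r * x) := by
  have e1 : r * z g r t = ∫ s in (0 : ℝ)..t, r * exp (r * (s - t)) * g s := by
    rw [z, ← mul_assoc, ← intervalIntegral.integral_const_mul]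
    refine intervalIntegral.integral_congr fun s _ => ?_
    rw [show r * (s - t) = -r * t + r * s by ring, exp_add]
    ring
  have hc : Continuous fun s => r * exp (r * (s - t)) * g s := by fun_prop
  have key : ∀ {a b m : ℝ}, a ≤ b → (∀ s ∈ Icc a b, g s ≤ m) →
      ∫ s in a..b, r * exp (r * (s - t)) * g s ≤ exp (r * (b - t)) * m - exp (r * (a - t)) * m :=
    fun {a b m} hab h => intLe (Γ := fun s => exp (r * (s - t)) * m)
      (g := fun s => r * exp (r * (s - t)) * m) hab hc (by fun_prop)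
      (fun s => HasDerivAt.congr_deriv
        ((((hasDerivAt_id' s).sub_const t).const_mul r).exp.mul_const m) (by ring))
      fun s hs => mul_le_mul_of_nonneg_left (h s hs) (by positivity)
  have I := fun a b => hc.intervalIntegrable (μ := volume) a b
  have k1 := key (a := 0) (b := t - x') (m := 1) (by linarith) fun s _ => h1 s
  have k2 := key (a := t - x') (b := t - x) (by linarith) h2
  have k3 := key (a := t - x) (b := t) (m := 1) (by linarith) fun s _ => h1 s
  have j1 := intervalIntegral.integral_add_adjacent_intervals (I 0 (t - x')) (I (t - x') (t - x))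
  have j2 := intervalIntegral.integral_add_adjacent_intervals (I 0 (t - x)) (I (t - x) t)
  have a1 : exp (r * (t - x' - t)) ≤ 1 / (r * x') := by
    rw [show r * (t - x' - t) = -(r * x') by ring, exp_neg, inv_eq_one_div]
    exact one_div_le_one_div_of_le (by positivity) (by linarith [add_one_le_exp (r * x')])
  have a2 : 1 - r * x ≤ exp (r * (t - x - t)) := by linarith [add_one_le_exp (r * (t - x - t))]
  have a3 : exp (r * (t - x - t)) ≤ 1 := exp_le_one_iff.2 (by nlinarith)
  have a4 := exp_pos (r * (t - x' - t))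
  have a5 := exp_pos (r * (0 - t))
  rw [sub_self, mul_zero, exp_zero] at k3
  rw [e1]
  nlinarith [mul_nonneg (sub_nonneg.2 hγ) (add_nonneg a4.le (sub_nonneg.2 a3))]

lemma roots {c l : ℝ} (hc : 0 < c) (hl : 0 < l) (h : 4 * l < c ^ 2) :
    ∃ a b, 0 < a ∧ a < b ∧ a + b = c ∧ a * b = l := by
  have w0 : 0 < √(c ^ 2 - 4 * l) := sqrt_pos.2 (by linarith)
  have w2 : √(c ^ 2 - 4 * l) ^ 2 = c ^ 2 - 4 * l := sq_sqrt (by linarith)
  refine ⟨(c - √(c ^ 2 - 4 * l)) / 2, (c + √(c ^ 2 - 4 * l)) / 2, ?_, by linarith, by ring,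
    by nlinarith⟩
  have : √(c ^ 2 - 4 * l) < c := (sqrt_lt' hc).2 (by linarith)
  linarith

lemma num {c N a b X Y w za zb : ℝ} (hc : 0 < c) (hN : 14 ≤ N) (A0 : 0 < a) (A1 : a < b)
    (A2 : a + b = c) (A3 : a * b * (N * X) = c) (hY : N ≤ c * Y) (hw : 0 < w)
    (f1 : a * za ≤ -1 + 2 * (1 / (a * (N ^ 2 * X)) + a * (2 * X)))
    (f2 : b * -zb ≤ -w + 2 * (1 / (b * Y) + b * 0)) :
    1 + w - 14 / N ≤ c * ((b * zb - a * za) / (b - a)) := by
  have N0 : 0 < N := by linarith
  have b0 := A0.trans A1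
  have Y0 : 0 < Y := (mul_pos_iff_of_pos_left hc).1 (N0.trans_le hY)
  have c1 : 1 / (a * (N ^ 2 * X)) ≤ 1 / N := one_div_le_one_div_of_le N0 (by
    have : b * 1 ≤ b * (a * (N * X)) := by nlinarith
    have := le_of_mul_le_mul_left this b0
    nlinarith)
  have c2 : a * (2 * X) ≤ 4 / N := by
    rw [le_div_iff₀ N0]
    have : b * (a * (N * X)) ≤ b * 2 := by nlinarith
    have := le_of_mul_le_mul_left this b0
    nlinarith
  have c3 : 1 / (b * Y) ≤ 2 / N := by
    rw [div_le_div_iff₀ (mul_pos b0 Y0) N0]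
    nlinarith [mul_le_mul_of_nonneg_right A1.le Y0.le]
  have c4 : 14 / N ≤ 1 := (div_le_one N0).2 hN
  have c5 : 1 + w - 14 / N ≤ b * zb - a * za := by
    have : 14 / N = 2 * (1 / N + 4 / N) + 2 * (2 / N) := by ring
    linarith
  have c6 : 0 ≤ 1 + w - 14 / N := by linarith
  rw [← mul_div_assoc, le_div_iff₀ (sub_pos.2 A1)]
  nlinarith [mul_le_mul_of_nonneg_left c5 hc.le]

lemma lower {F : Type*} [NormedAddCommGroup F] [InnerProductSpace ℝ F] {d : ℕ} (hd : 0 < d)
    (e : OrthonormalBasis (Fin d) ℝ F) (B : F →ₗ[ℝ] F) {c y N : ℝ} (hc : 0 < c) (hy : 0 < y)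
    (hN : 14 ≤ N) (hcy : N ≤ c * y) (hB : ∀ i, B (e i) = (c / (y * N ^ (2 * (i : ℕ) + 1))) • e i) :
    ∃ f u v : ℝ → F, Continuous f ∧ (∀ t, ‖f t‖ ≤ 1) ∧ (∀ t, HasDerivAt u (v t) t) ∧
      (∀ t, HasDerivAt v (f t - c • v t - B (u t)) t) ∧
      ∃ᶠ t in atTop, 1 + √d - 14 * √d / N ≤ c * ‖v t‖ := by
  have N0 : 0 < N := by linarith
  have N1 : 1 ≤ N := by linarith
  set X : ℕ → ℝ := fun j => y * N ^ (2 * j) with hX
  have X0 : ∀ j, 0 < X j := fun j => by positivity
  have Xm : Monotone X := fun i j h =>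
    mul_le_mul_of_nonneg_left (pow_le_pow_right₀ N1 (by omega)) hy.le
  have Xs : ∀ j, X (j + 1) = N ^ 2 * X j := fun j => by simp only [hX]; ring
  have Xy : ∀ j, y ≤ X j := fun j => by simpa [hX] using Xm (Nat.zero_le j)
  have hl : ∀ i : Fin d, c / (y * N ^ (2 * (i : ℕ) + 1)) = c / (N * X i) := fun i => by
    simp only [hX]; ring
  simp only [hl] at hB
  choose a b a0 ab hab hab' using fun i : Fin d => roots (l := c / (N * X i)) hc
    (by have := X0 i; positivity) (by
      have := X0 i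
      rw [← mul_div_assoc, div_lt_iff₀ (by positivity)]
      have h1 : N * N ≤ c * (N * X i) := by nlinarith [mul_le_mul_of_nonneg_left (Xy i) hc.le]
      have h2 : 4 < c * (N * X i) := by nlinarith only [h1, hN]
      nlinarith only [mul_lt_mul_of_pos_left h2 hc])
  set P := X d with hP
  have P0 : 0 < P := X0 d
  set σ : ℝ → ℝ := fun t => P * arccos (cos (t / P)) with hσ
  have σ0 : ∀ t, 0 ≤ σ t := fun t => mul_nonneg P0.le (arccos_nonneg _)
  have σs : ∀ (n : ℕ) (s : ℝ), s ∈ Icc (P * (n * (2 * π)) - P) (P * (n * (2 * π))) →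
      σ s = P * (n * (2 * π)) - s := fun n s hs => by
    have : s / P = n * (2 * π) - (P * (n * (2 * π)) - s) / P := by field_simp; ring
    simp only [hσ]
    rw [this, cos_nat_mul_two_pi_sub, arccos_cos (div_nonneg (by linarith [hs.2]) P0.le)
      ((div_le_iff₀ P0).2 (by nlinarith [hs.1, pi_gt_three]))]
    field_simp
  set ψ : ℕ → ℝ → ℝ := fun j t => max 0 (min 1 (σ t / X j - 1)) with hψ
  have ψ0 : ∀ j t, 0 ≤ ψ j t := fun j t => le_max_left _ _
  have ψ1 : ∀ j t, ψ j t ≤ 1 := fun j t => max_le zero_le_one (min_le_left _ _)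
  have ψm : ∀ j t, ψ (j + 1) t ≤ ψ j t := fun j t => max_le_max le_rfl (min_le_min le_rfl
    (sub_le_sub_right (div_le_div_of_nonneg_left (σ0 t) (X0 j) (Xm (Nat.le_succ j))) _))
  have ψa : ∀ j t, σ t ≤ X j → ψ j t = 0 := fun j t h => max_eq_left ((min_le_right _ _).trans
    (sub_nonpos.2 ((div_le_one (X0 j)).2 h)))
  have ψb : ∀ j t, 2 * X j ≤ σ t → ψ j t = 1 := fun j t h => by
    simp only [hψ]
    rw [min_eq_left (by rw [le_sub_iff_add_le, le_div_iff₀ (X0 j)]; linarith),
      max_eq_right zero_le_one]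
  have D0 : 0 < √(d : ℝ) := sqrt_pos.2 (Nat.cast_pos.2 hd)
  have D2 : √(d : ℝ) ^ 2 = d := sq_sqrt (Nat.cast_nonneg d)
  have D1 : 1 / √(d : ℝ) ≤ 1 := (div_le_one D0).2 (one_le_sqrt.2 (Nat.one_le_cast.2 hd))
  set g : Fin d → ℝ → ℝ := fun i t => (1 - ψ 0 t) / √d - (ψ i t - ψ (i + 1) t) with hg
  have cσ : Continuous σ := continuous_const.mul (continuous_arccos.comp (by fun_prop))
  have cg : ∀ i, Continuous (g i) := fun i => by simp only [hg, hψ]; fun_prop
  have co : ∀ (w : Fin d → ℝ) i, ⟪e i, ∑ j, w j • e j⟫ = w i := fun w i =>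
    e.orthonormal.inner_right_fintype w i
  have nf : ∀ t, ‖∑ j, g j t • e j‖ ≤ 1 := fun t => by
    rw [← sq_le_one_iff₀ (norm_nonneg _), ← e.sum_sq_inner_right]
    simp only [co]
    have h1 : ∀ i : Fin d, g i t ^ 2 ≤ (1 - ψ 0 t) / d + (ψ i t - ψ (i + 1) t) := fun i => by
      have b1 := sub_nonneg.2 (ψm i t)
      have b2 := sub_nonneg.2 (ψ1 0 t)
      have b3 : ((1 - ψ 0 t) / √d) ^ 2 ≤ (1 - ψ 0 t) / d := by
        rw [div_pow, D2]
        exact div_le_div_of_nonneg_right (by nlinarith [ψ0 0 t]) (Nat.cast_nonneg d)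
      have b4 := mul_nonneg (div_nonneg b2 D0.le) b1
      simp only [hg]
      nlinarith [ψ1 i t, ψ0 (i + 1) t]
    refine (Finset.sum_le_sum fun i _ => h1 i).trans ?_
    rw [Finset.sum_add_distrib, Fin.sum_univ_eq_sum_range (fun i => ψ i t - ψ (i + 1) t),
      Finset.sum_range_sub' (fun i => ψ i t), Finset.sum_const, Finset.card_univ, Fintype.card_fin,
      nsmul_eq_mul, mul_div_cancel₀ _ (Nat.cast_pos.2 hd).ne']
    linarith [ψ0 d t]
  have ng : ∀ i t, |g i t| ≤ 1 := fun i t => by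
    rw [← co (fun j => g j t) i]
    exact (abs_real_inner_le_norm _ _).trans (by simpa using nf t)
  set U : Fin d → ℝ → ℝ := fun i t => (z (g i) (a i) t - z (g i) (b i) t) / (b i - a i) with hU
  set V : Fin d → ℝ → ℝ :=
    fun i t => (b i * z (g i) (b i) t - a i * z (g i) (a i) t) / (b i - a i) with hV
  have dU : ∀ i t, HasDerivAt (U i) (V i t) t := fun i t => HasDerivAt.congr_deriv
    (((dz (cg i) (a i) t).fun_sub (dz (cg i) (b i) t)).div_const _) (by simp only [hV]; ring)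
  have dV : ∀ i t, HasDerivAt (V i) (g i t - c * V i t - c / (N * X i) * U i t) t := fun i t =>
    HasDerivAt.congr_deriv ((((dz (cg i) (b i) t).const_mul _).fun_sub
      ((dz (cg i) (a i) t).const_mul _)).div_const _) (by
      have := (sub_pos.2 (ab i)).ne'
      rw [← hab' i, ← hab i]
      simp only [hU, hV]
      field_simp
      ring)
  refine ⟨fun t => ∑ j, g j t • e j, fun t => ∑ j, U j t • e j, fun t => ∑ j, V j t • e j,
    by fun_prop, nf, fun t => .fun_sum fun i _ => (dU i t).smul_const _, fun t => ?_, ?_⟩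
  · refine HasDerivAt.congr_deriv (.fun_sum fun i _ => (dV i t).smul_const (e i)) ?_
    simp only [map_sum, map_smul, hB, Finset.smul_sum, smul_smul, ← Finset.sum_sub_distrib,
      ← sub_smul, mul_comm]
  have tn : Tendsto (fun n : ℕ => P * (n * (2 * π))) atTop atTop :=
    (tendsto_natCast_atTop_atTop.atTop_mul_const (by positivity)).const_mul_atTop P0
  refine tn.frequently (Eventually.frequently ?_)
  filter_upwards [tn.eventually_ge_atTop P] with n hn
  set t := P * (n * (2 * π)) with ht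
  have hv : ∀ i, 1 + 1 / √d - 14 / N ≤ c * V i t := fun i => by
    have A0 := a0 i
    have A1 := ab i
    have A2 := hab i
    have A3 := hab' i
    have Xi := X0 i
    have XP : X (i + 1) ≤ P := Xm i.2
    have X2 : 2 * X i ≤ X (i + 1) := by rw [Xs]; nlinarith [mul_pos N0 Xi]
    rw [eq_div_iff (by positivity)] at A3
    have f1 := filt (cg i) (γ := -1) (x := 2 * X i) (x' := X (i + 1)) (t := t) A0
      (fun s => (abs_le.1 (ng i s)).2) le_rfl (by positivity) (X0 _) X2 (XP.trans hn)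
      fun s hs => by
        have := σs n s ⟨by linarith [hs.1], by linarith [hs.2]⟩
        simp only [hg]
        rw [ψa (i + 1) s (by linarith [hs.1]), ψb i s (by linarith [hs.2]),
          ψb 0 s (by linarith [hs.2, Xm (Nat.zero_le i)])]
        simp
    have f2 := filt (cg i).neg (γ := -(1 / √d)) (x := 0) (x' := X 0) (t := t) (A0.trans A1)
      (fun s => neg_le.1 (abs_le.1 (ng i s)).1) (by linarith)
      le_rfl (X0 _) (X0 _).le ((Xm (Nat.zero_le d)).trans hn) fun s hs => by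
        have := σs n s ⟨by linarith [hs.1, Xm (Nat.zero_le d)], by linarith [hs.2]⟩
        simp only [hg, Pi.neg_apply]
        rw [ψa (i + 1) s (by linarith [hs.1, Xm (Nat.zero_le (i + 1))]),
          ψa i s (by linarith [hs.1, Xm (Nat.zero_le i)]), ψa 0 s (by linarith [hs.1])]
        simp
    have zn : z (-g i) (b i) t = -z (g i) (b i) t := by simp [z]
    rw [zn] at f2
    rw [Xs] at f1
    exact num hc hN A0 A1 A2 A3 (hcy.trans (mul_le_mul_of_nonneg_left (Xy 0) hc.le))
      (one_div_pos.2 D0) f1 f2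
  have h1 := l1 e (∑ j, V j t • e j)
  simp only [co, Fintype.card_fin] at h1
  have h2 : ∑ _i : Fin d, (1 + 1 / √d - 14 / N) ≤ c * ∑ i, |V i t| := by
    rw [Finset.mul_sum]
    exact Finset.sum_le_sum fun i _ =>
      (hv i).trans (mul_le_mul_of_nonneg_left (le_abs_self _) hc.le)
  rw [Finset.sum_const, Finset.card_univ, Fintype.card_fin, nsmul_eq_mul] at h2
  refine le_of_mul_le_mul_right ?_ D0
  have h3 : (1 + √d - 14 * √d / N) * √d = √d ^ 2 * (1 + 1 / √d - 14 / N) := by
    field_simp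
    ring
  rw [h3, D2, mul_assoc]
  exact h2.trans (mul_le_mul_of_nonneg_left h1 hc.le)

end Pool.Agent.H.MP_38ba9c_an
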