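import Pool.Agent.H.MP_38ba9c_an.Ker

open Filter Topology Real MeasureTheory Set RealInnerProductSpace

namespace Pool.Agent.H.MP_38ba9c_an

lemma acOf {F : Type*} [NormedAddCommGroup F] [NormedSpace ℝ F] {q p : ℝ → F} {a b : ℝ}
    (hab : a ≤ b) (hp : ContinuousOn p (Icc a b))
    (hq : ∀ s ∈ Icc a b, HasDerivWithinAt q (p s) (Icc a b) s) :
    AbsolutelyContinuousOnInterval q a b := by
  obtain ⟨C, hC⟩ := isCompact_Icc.exists_bound_of_continuousOn hp
  refine LipschitzOnWith.absolutelyContinuousOnInterval (K := C.toNNReal) ?_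
  rw [uIcc_of_le hab]
  refine (convex_Icc a b).lipschitzOnWith_of_nnnorm_hasDerivWithin_le hq fun x hx => ?_
  rw [← NNReal.coe_le_coe, coe_nnnorm]
  exact (hC x hx).trans (le_coe_toNNReal C)

lemma acInner {F : Type*} [NormedAddCommGroup F] [InnerProductSpace ℝ F] {p : ℝ → F} {a b : ℝ}
    (e : F) (hp : AbsolutelyContinuousOnInterval p a b) :
    AbsolutelyContinuousOnInterval (fun s => ⟪e, p s⟫) a b := by
  apply squeeze_zero (fun t => ?_) (fun t => ?_) (by simpa using Tendsto.const_mul ‖e‖ hp)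
  · exact Finset.sum_nonneg fun i hi => dist_nonneg
  · rw [Finset.mul_sum]
    refine Finset.sum_le_sum fun i _ => ?_
    rw [Real.dist_eq, ← inner_sub_right, dist_eq_norm]
    exact abs_real_inner_le_norm _ _

/-- The fundamental solution of k'' + c k' + l k = 0, its derivative and the excess x. -/
structure Ker (c l : ℝ) (k h x : ℝ → ℝ) : Prop where
  k0 : k 0 = 0
  h0 : h 0 = 1
  dk : ∀ t, HasDerivAt k (h t) t
  dh : ∀ t, HasDerivAt h (-c * h t - l * k t) t
  th : Tendsto h atTop (𝓝 0)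
  tk : Tendsto k atTop (𝓝 0)
  cx : Continuous x
  x0 : ∀ t, 0 ≤ x t
  hx : ∀ t, |h t| ≤ exp (-c * t) + x t
  ix : ∀ T, 0 ≤ T → ∫ t in (0 : ℝ)..T, x t ≤ 1 / c

lemma kerc {c l : ℝ} (hc : 0 < c) (hl : 0 < l) : ∃ k h x, Ker c l k h x := by
  have l0 : 0 < l / c ^ 2 := by positivity
  obtain ⟨k, h, F, hI⟩ := kernel l0
  have tc : Tendsto (fun t : ℝ => c * t) atTop atTop := tendsto_id.const_mul_atTop hc
  refine ⟨fun t => k (c * t) / c, fun t => h (c * t), fun t => ex h (c * t), by simp [F.k0],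
    by simp [F.h0], fun t => ?_, fun t => ?_, (F.decay l0).1.comp tc, ?_, ?_,
    fun t => le_max_right _ _, fun t => ?_, fun T hT => ?_⟩
  · refine (((F.dk (c * t)).comp t ((hasDerivAt_id' t).const_mul c)).div_const c).congr_deriv ?_
    field_simp
  · refine ((F.dh (c * t)).comp t ((hasDerivAt_id' t).const_mul c)).congr_deriv ?_
    field_simp
  · simpa using ((F.decay l0).2.comp tc).div_const c
  · exact F.cex.comp (by fun_prop)
  · rw [neg_mul, ← sub_le_iff_le_add']
    exact le_max_left _ _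
  · rw [intervalIntegral.integral_comp_mul_left (ex h) hc.ne', mul_zero, smul_eq_mul, one_div]
    exact mul_le_of_le_one_right (by positivity) (hI _ (by positivity))

lemma duhamel {c l : ℝ} {k h x : ℝ → ℝ} (K : Ker c l k h x) {q p g : ℝ → ℝ} {T t : ℝ}
    (hT : 0 < T) (ht : T ≤ t) (hq : ∀ s, 0 < s → HasDerivAt q (p s) s)
    (hp : AbsolutelyContinuousOnInterval p T t)
    (he : ∀ᵐ s, 0 < s → HasDerivAt p (g s - c * p s - l * q s) s) :
    IntervalIntegrable (fun s => h (t - s) * g s) volume T t ∧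
    ∫ s in T..t, h (t - s) * g s = p t - (h (t - T) * p T - l * (k (t - T) * q T)) := by
  have ck : Continuous k := continuous_iff_continuousAt.2 fun t => (K.dk t).continuousAt
  have ch : Continuous h := continuous_iff_continuousAt.2 fun t => (K.dh t).continuousAt
  have dk := fun s => (K.dk (t - s)).comp s ((hasDerivAt_id' s).const_sub t)
  have dh := fun s => (K.dh (t - s)).comp s ((hasDerivAt_id' s).const_sub t)
  have cp : ContinuousOn p (Icc T t) := uIcc_of_le ht ▸ hp.continuousOn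
  have a1 : AbsolutelyContinuousOnInterval (fun s => h (t - s) * p s - l * (k (t - s) * q s)) T t :=
    ((acOf ht (by fun_prop) fun s _ => (dh s).hasDerivWithinAt).fun_mul hp).fun_sub
      (((acOf ht (by fun_prop) fun s _ => (dk s).hasDerivWithinAt).fun_mul
        (acOf ht cp fun s hs => (hq s (hT.trans_le hs.1)).hasDerivWithinAt)).const_mul l)
  have a2 : ∀ᵐ s, s ∈ uIoc T t →
      deriv (fun s => h (t - s) * p s - l * (k (t - s) * q s)) s = h (t - s) * g s := by
    filter_upwards [he] with s hs h1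
    rw [uIoc_of_le ht] at h1
    have s0 := hT.trans h1.1
    refine (HasDerivAt.congr_deriv (((dh s).fun_mul (hs s0)).fun_sub
      (((dk s).fun_mul (hq s s0)).const_mul l)) ?_).deriv
    simp only [Function.comp]
    ring
  refine ⟨a1.intervalIntegrable_deriv.congr_ae ((ae_restrict_iff' measurableSet_uIoc).2 a2), ?_⟩
  rw [← intervalIntegral.integral_congr_ae a2, a1.integral_deriv_eq_sub]
  simp [K.k0, K.h0]

section
variable {ι F : Type*} [Fintype ι] [NormedAddCommGroup F] [InnerProductSpace ℝ F]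

lemma cs (e : OrthonormalBasis ι ℝ F) (x y : F) :
    ∑ i, |⟪e i, x⟫| * |⟪e i, y⟫| ≤ ‖x‖ * ‖y‖ := by
  refine (Real.sum_mul_le_sqrt_mul_sqrt _ _ _).trans ?_
  simp only [sq_abs, e.sum_sq_inner_right, sqrt_sq (norm_nonneg _), le_refl]

lemma l1 (e : OrthonormalBasis ι ℝ F) (x : F) :
    ∑ i, |⟪e i, x⟫| ≤ ‖x‖ * √(Fintype.card ι) := by
  have := Real.sum_mul_le_sqrt_mul_sqrt Finset.univ (fun i => |⟪e i, x⟫|) fun _ => 1
  simpa [sq_abs, e.sum_sq_inner_right] using this

lemma upper (e : OrthonormalBasis ι ℝ F) (B : F → F) (l : ι → ℝ) (hl : ∀ i, 0 < l i)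
    (hB : ∀ i y, ⟪e i, B y⟫ = l i * ⟪e i, y⟫) {c : ℝ} (hc : 0 < c) {f u v : ℝ → F}
    (hu : ∀ s, 0 < s → HasDerivAt u (v s) s)
    (hv : ∀ b, 0 ≤ b → AbsolutelyContinuousOnInterval v 0 b)
    (he : ∀ᵐ s, 0 < s → HasDerivAt v (f s - c • v s - B (u s)) s) {M T : ℝ} (hT : 0 < T)
    (hM0 : 0 ≤ M) (hM : ∀ᵐ s, T ≤ s → ‖f s‖ ≤ M) {ε : ℝ} (hε : 0 < ε) :
    ∀ᶠ t in atTop, ‖v t‖ ≤ (1 + √(Fintype.card ι)) / c * M + ε := by
  choose k h x K using fun i => kerc hc (hl i)
  have tT : Tendsto (fun t : ℝ => t - T) atTop atTop := tendsto_atTop_add_const_right _ _ tendsto_id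
  have lim : Tendsto (fun t => ∑ i, |h i (t - T) * ⟪e i, v T⟫ - l i * (k i (t - T) * ⟪e i, u T⟫)|)
      atTop (𝓝 0) := by
    have := tendsto_finsetSum Finset.univ fun i _ => ((((K i).th.comp tT).mul_const
      ⟪e i, v T⟫).sub ((((K i).tk.comp tT).mul_const ⟪e i, u T⟫).const_mul (l i))).abs
    simpa using this
  filter_upwards [lim.eventually (gt_mem_nhds hε), eventually_ge_atTop T] with t h1 ht
  have D := fun i => duhamel (K i) (q := fun s => ⟪e i, u s⟫) (p := fun s => ⟪e i, v s⟫)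
    (g := fun s => ⟪e i, f s⟫) hT ht
    (fun s hs => by simpa using (hasDerivAt_const s (e i)).inner ℝ (hu s hs))
    (acInner _ ((hv t (hT.le.trans ht)).mono (by
      rw [uIcc_of_le ht, uIcc_of_le (hT.le.trans ht)]; exact Icc_subset_Icc_left hT.le)))
    (he.mono fun s hs s0 => by
      simpa [inner_sub_right, inner_smul_right, hB] using
        (hasDerivAt_const s (e i)).inner ℝ (hs s0))
  set R := fun i => h i (t - T) * ⟪e i, v T⟫ - l i * (k i (t - T) * ⟪e i, u T⟫) with hR
  have cx := fun i => (K i).cx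
  have i1 : ∫ s in T..t, ∑ i, ⟪e i, v t⟫ * (h i (t - s) * ⟪e i, f s⟫) =
      ‖v t‖ ^ 2 - ∑ i, ⟪e i, v t⟫ * R i := by
    rw [intervalIntegral.integral_finsetSum fun i _ => (D i).1.const_mul _,
      ← e.sum_sq_inner_right, ← Finset.sum_sub_distrib]
    refine Finset.sum_congr rfl fun i _ => ?_
    rw [intervalIntegral.integral_const_mul, (D i).2]
    ring
  have i2 : ∫ s in T..t, ∑ i, ⟪e i, v t⟫ * (h i (t - s) * ⟪e i, f s⟫) ≤
      ∫ s in T..t, (M * ‖v t‖ * exp (-c * (t - s)) + ∑ i, M * |⟪e i, v t⟫| * x i (t - s)) := by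
    refine intervalIntegral.integral_mono_ae_restrict ht ?_
      (Continuous.intervalIntegrable (by fun_prop) _ _) ((ae_restrict_iff' measurableSet_Icc).2 ?_)
    · exact (IntervalIntegrable.sum Finset.univ fun i _ => (D i).1.const_mul ⟪e i, v t⟫).congr
        fun s _ => by simp
    filter_upwards [hM] with s hs h2
    have h3 := hs h2.1
    have h4 := (cs e (v t) (f s)).trans (mul_le_mul_of_nonneg_left h3 (norm_nonneg _))
    refine le_trans ?_ (add_le_add_left (mul_le_mul_of_nonneg_right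
      (h4.trans_eq (mul_comm _ _)) (exp_pos _).le) _)
    rw [Finset.sum_mul, ← Finset.sum_add_distrib]
    refine Finset.sum_le_sum fun i _ => (le_abs_self _).trans ?_
    have h5 : |⟪e i, f s⟫| ≤ M := (abs_real_inner_le_norm _ _).trans (by simpa using h3)
    have h6 := mul_le_mul_of_nonneg_right ((K i).hx (t - s)) (abs_nonneg ⟪e i, f s⟫)
    have h7 := mul_le_mul_of_nonneg_left h5 ((K i).x0 (t - s))
    rw [abs_mul, abs_mul]
    nlinarith [abs_nonneg ⟪e i, v t⟫]
  have i3 : ∫ s in T..t, exp (-c * (t - s)) ≤ 1 / c := by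
    have := intLe (G := fun s => exp (-c * (t - s))) (Γ := fun s => exp (-c * (t - s)) / c) ht
      (by fun_prop) (by fun_prop) (fun s => HasDerivAt.congr_deriv
        ((((hasDerivAt_id' s).const_sub t).const_mul (-c)).exp.div_const c) (by field_simp))
      fun _ _ => le_rfl
    have h0 : 0 < exp (-c * (t - T)) / c := by positivity
    simp only [sub_self, mul_zero, exp_zero] at this
    linarith
  have i4 : ∀ i, ∫ s in T..t, x i (t - s) ≤ 1 / c := fun i => by
    rw [intervalIntegral.integral_comp_sub_left (x i), sub_self]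
    exact (K i).ix _ (sub_nonneg.2 ht)
  rw [i1, intervalIntegral.integral_add (Continuous.intervalIntegrable (by fun_prop) _ _)
    (Continuous.intervalIntegrable (by fun_prop) _ _), intervalIntegral.integral_const_mul,
    intervalIntegral.integral_finsetSum fun i _ =>
      Continuous.intervalIntegrable (by fun_prop) _ _] at i2
  have i5 : ∑ i, ∫ s in T..t, M * |⟪e i, v t⟫| * x i (t - s) ≤
      M * (1 / c) * (‖v t‖ * √(Fintype.card ι)) := by
    refine le_trans ?_ (mul_le_mul_of_nonneg_left (l1 e (v t)) (by positivity))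
    rw [Finset.mul_sum]
    refine Finset.sum_le_sum fun i _ => ?_
    rw [intervalIntegral.integral_const_mul]
    exact (mul_le_mul_of_nonneg_left (i4 i) (by positivity)).trans_eq (by ring)
  have i6 : ∑ i, ⟪e i, v t⟫ * R i ≤ ‖v t‖ * ε := by
    refine le_trans ?_ (mul_le_mul_of_nonneg_left h1.le (norm_nonneg _))
    rw [Finset.mul_sum]
    refine Finset.sum_le_sum fun i _ => (le_abs_self _).trans ?_
    rw [abs_mul]
    exact mul_le_mul_of_nonneg_right ((abs_real_inner_le_norm _ _).trans (by simp)) (abs_nonneg _)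
  have i7 := mul_le_mul_of_nonneg_left i3 (mul_nonneg hM0 (norm_nonneg (v t)))
  rcases (norm_nonneg (v t)).eq_or_lt with h0 | h0
  · rw [← h0]; positivity
  refine le_of_mul_le_mul_left ?_ h0
  have : ‖v t‖ * ((1 + √(Fintype.card ι)) / c * M + ε) =
      M * ‖v t‖ * (1 / c) + M * (1 / c) * (‖v t‖ * √(Fintype.card ι)) + ‖v t‖ * ε := by ring
  nlinarith

end

end Pool.Agent.H.MP_38ba9c_an
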